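import Mathlib
import Pool.Agent.H13.IC.Oa

/-!
# THEOREM IC (MP_8e9775_nt), chapter 4 (lower bound): definitions

`pt s t v = -1/(t + iv) - s`, `Psi k h s v` = the integral over `|t| ≤ 1/4` of
`|t + iv| ^ (-2k) |h(-1/(t+iv) - s)| ^ 2`.
-/

set_option autoImplicit false

namespace Pool.Agent.H37.IC

open Complex UpperHalfPlane MatrixGroups Pool.Agent.H13.IC

/-- the point `-1/(t + iv) - s` -/
noncomputable def pt (s t v : ℝ) : ℂ := -1 / ((t : ℂ) + (v : ℂ) * Complex.I) - (s : ℂ)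

/-- the integral over one box at height `v` -/
noncomputable def Psi (k : ℕ) (h : ℍ → ℂ) (s v : ℝ) : ℝ :=
  ∫ t in (-(1 / 4) : ℝ)..(1 / 4),
    (‖(t : ℂ) + (v : ℂ) * Complex.I‖ ^ (2 * k))⁻¹ * ‖h (ofComplex (pt s t v))‖ ^ 2

/-- the denominators of height `y` -/
def Den (y : ℝ) (s : Finset ℕ) : Prop :=
  ∀ c ∈ s, 2 ≤ c ∧ 1 / 2 ≤ (c : ℝ) ^ 2 * y ∧ (c : ℝ) ^ 2 * y ≤ 1

end Pool.Agent.H37.IC
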