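import Mathlib
import Pool.Agent.H37.IC.Defs

/-!
# [H37 IC Box] THEOREM IC, chapter 4: the integral over one box

PROOF. Let `a = γ 0 0`, `b = γ 0 1`, `c = γ 1 0 > 0`, `d = γ 1 1`, `a d - b c = 1`
(`Matrix.SpecialLinearGroup.det_coe`, `Matrix.det_fin_two`). For `ζ = t + iv`, `v > 0`, put
`w = pt (d/c) t v = -1/ζ - d/c`, a point of the upper half plane (`im w = v/(t^2+v^2)`), then
`c w + d = -c/ζ`, `a w + b = -a/ζ - 1/c`, so `γ • w = a/c + ζ/c^2`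
(`UpperHalfPlane.specialLinearGroup_apply` or `ModularGroup`/`UpperHalfPlane.coe_specialLinearGroup_apply`),
and by the definition of `sl`: `f (γ • w) = (c w + d)^k * sl k f γ w = (-c/ζ)^k * sl k f γ w`. So
`‖f (a/c + ζ/c^2)‖^2 = c^(2k) * (‖ζ‖^(2k))⁻¹ * ‖sl k f γ (ofComplex w)‖^2`.
Substitute `x = a/c + t/c^2` (`intervalIntegral.integral_comp_mul_add` /
`intervalIntegral.integral_comp_add_div`, no continuity needed), `v = c^2 y`: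
`x + iy = a/c + ζ/c^2`. The factor `1/c^2` is the Jacobian.
-/

set_option autoImplicit false

namespace Pool.Agent.H37.IC

open Complex UpperHalfPlane MatrixGroups Pool.Agent.H13.IC

private theorem key (k : ℕ) (f : ℍ → ℂ) (γ : SL(2, ℤ)) (hc : 0 < γ 1 0) (t v : ℝ) (hv : 0 < v) :
    ‖f (ofComplex ((((γ 0 0 : ℝ) / (γ 1 0 : ℝ) + t / (γ 1 0 : ℝ) ^ 2 : ℝ) : ℂ) +
      ((v / (γ 1 0 : ℝ) ^ 2 : ℝ) : ℂ) * Complex.I))‖ ^ 2 =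
    (γ 1 0 : ℝ) ^ (2 * k) * ((‖(t : ℂ) + (v : ℂ) * Complex.I‖ ^ (2 * k))⁻¹ *
      ‖sl k f γ (ofComplex (pt ((γ 1 1 : ℝ) / (γ 1 0 : ℝ)) t v))‖ ^ 2) := by
  have hcR : (0 : ℝ) < (γ 1 0 : ℝ) := by exact_mod_cast hc
  have hcC : ((γ 1 0 : ℤ) : ℂ) ≠ 0 := by exact_mod_cast hc.ne'
  set ζ : ℂ := (t : ℂ) + (v : ℂ) * Complex.I with hζ
  have him : ζ.im = v := by simp [hζ]
  have hζ0 : ζ ≠ 0 := by
    intro h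
    rw [h] at him
    simp at him
    exact hv.ne him
  set w : ℂ := pt ((γ 1 1 : ℝ) / (γ 1 0 : ℝ)) t v with hw
  have hw1 : w = -1 / ζ - ((γ 1 1 : ℤ) : ℂ) / ((γ 1 0 : ℤ) : ℂ) := by
    rw [hw, pt, ← hζ]
    push_cast
    ring
  have hwim : 0 < w.im := by
    have h1 : w.im = v / Complex.normSq ζ := by
      rw [hw, pt, ← hζ, Complex.sub_im, Complex.ofReal_im, sub_zero, neg_div, Complex.neg_im,
        one_div, Complex.inv_im, him]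
      ring
    rw [h1]
    exact div_pos hv (Complex.normSq_pos.mpr hζ0)
  have hτ : ((ofComplex w : ℍ) : ℂ) = w := by
    rw [UpperHalfPlane.ofComplex_apply_of_im_pos hwim]
  have hden : ((γ 1 0 : ℤ) : ℂ) * w + ((γ 1 1 : ℤ) : ℂ) = -((γ 1 0 : ℤ) : ℂ) / ζ := by
    rw [hw1]
    field_simp
    ring
  have hdet : ((γ 0 0 : ℤ) : ℂ) * ((γ 1 1 : ℤ) : ℂ) - ((γ 0 1 : ℤ) : ℂ) * ((γ 1 0 : ℤ) : ℂ) = 1 := by
    have h1 := Matrix.SpecialLinearGroup.det_coe γ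
    rw [Matrix.det_fin_two] at h1
    exact_mod_cast h1
  have hmul : ((γ • (ofComplex w) : ℍ) : ℂ) =
      ((((γ 0 0 : ℝ) / (γ 1 0 : ℝ) + t / (γ 1 0 : ℝ) ^ 2 : ℝ) : ℂ) +
      ((v / (γ 1 0 : ℝ) ^ 2 : ℝ) : ℂ) * Complex.I) := by
    rw [UpperHalfPlane.coe_specialLinearGroup_apply, hτ]
    have e1 : ((algebraMap ℤ ℝ (γ 1 0) : ℝ) : ℂ) * w + ((algebraMap ℤ ℝ (γ 1 1) : ℝ) : ℂ) =
        -((γ 1 0 : ℤ) : ℂ) / ζ := by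
      rw [← hden]
      simp
    have e2 : ((algebraMap ℤ ℝ (γ 0 0) : ℝ) : ℂ) * w + ((algebraMap ℤ ℝ (γ 0 1) : ℝ) : ℂ) =
        -((γ 0 0 : ℤ) : ℂ) / ζ - 1 / ((γ 1 0 : ℤ) : ℂ) := by
      have e3 : ((algebraMap ℤ ℝ (γ 0 0) : ℝ) : ℂ) * w + ((algebraMap ℤ ℝ (γ 0 1) : ℝ) : ℂ) =
          ((γ 0 0 : ℤ) : ℂ) * w + ((γ 0 1 : ℤ) : ℂ) := by simp
      have e4 : ((γ 0 1 : ℤ) : ℂ) =
          (((γ 0 0 : ℤ) : ℂ) * ((γ 1 1 : ℤ) : ℂ) - 1) / ((γ 1 0 : ℤ) : ℂ) := by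
        rw [eq_div_iff hcC]
        linear_combination -hdet
      rw [e3, hw1, e4]
      field_simp
      ring
    rw [e1, e2]
    have e5 : ((((γ 0 0 : ℝ) / (γ 1 0 : ℝ) + t / (γ 1 0 : ℝ) ^ 2 : ℝ) : ℂ) +
        ((v / (γ 1 0 : ℝ) ^ 2 : ℝ) : ℂ) * Complex.I) =
        ((γ 0 0 : ℤ) : ℂ) / ((γ 1 0 : ℤ) : ℂ) + ζ / ((γ 1 0 : ℤ) : ℂ) ^ 2 := by
      rw [hζ]
      push_cast
      ring
    rw [e5]
    field_simp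
    ring
  rw [← hmul, UpperHalfPlane.ofComplex_apply]
  have hsl : sl k f γ (ofComplex w) * (-((γ 1 0 : ℤ) : ℂ) / ζ) ^ k = f (γ • ofComplex w) := by
    rw [sl, hτ, hden]
    exact div_mul_cancel₀ _ (pow_ne_zero _ (div_ne_zero (neg_ne_zero.mpr hcC) hζ0))
  rw [← hsl, norm_mul, norm_pow, norm_div, norm_neg, Complex.norm_intCast,
    abs_of_pos hcR, mul_pow, ← pow_mul, mul_comm k 2, div_pow]
  rw [div_eq_mul_inv]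
  ring

theorem box (k : ℕ) (f : ℍ → ℂ) (γ : SL(2, ℤ)) (hc : 0 < γ 1 0) (y : ℝ) (hy : 0 < y) :
    ∫ x in ((γ 0 0 : ℝ) / (γ 1 0 : ℝ) - 1 / (4 * (γ 1 0 : ℝ) ^ 2))..((γ 0 0 : ℝ) / (γ 1 0 : ℝ) +
      1 / (4 * (γ 1 0 : ℝ) ^ 2)), ‖f (ofComplex ((x : ℂ) + (y : ℂ) * Complex.I))‖ ^ 2 =
    (γ 1 0 : ℝ) ^ (2 * k) / (γ 1 0 : ℝ) ^ 2 *
      Psi k (sl k f γ) ((γ 1 1 : ℝ) / (γ 1 0 : ℝ)) ((γ 1 0 : ℝ) ^ 2 * y) := by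
  have hcR : (0 : ℝ) < (γ 1 0 : ℝ) := by exact_mod_cast hc
  have hc2 : ((γ 1 0 : ℝ) ^ 2) ≠ 0 := (pow_pos hcR 2).ne'
  have h1 := intervalIntegral.integral_comp_add_div (a := -(1 / 4 : ℝ)) (b := 1 / 4)
    (fun x : ℝ => ‖f (ofComplex ((x : ℂ) + (y : ℂ) * Complex.I))‖ ^ 2) hc2
    ((γ 0 0 : ℝ) / (γ 1 0 : ℝ))
  have e1 : (γ 0 0 : ℝ) / (γ 1 0 : ℝ) + -(1 / 4 : ℝ) / (γ 1 0 : ℝ) ^ 2 =
      (γ 0 0 : ℝ) / (γ 1 0 : ℝ) - 1 / (4 * (γ 1 0 : ℝ) ^ 2) := by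
    field_simp
    ring
  have e2 : (γ 0 0 : ℝ) / (γ 1 0 : ℝ) + (1 / 4 : ℝ) / (γ 1 0 : ℝ) ^ 2 =
      (γ 0 0 : ℝ) / (γ 1 0 : ℝ) + 1 / (4 * (γ 1 0 : ℝ) ^ 2) := by
    field_simp
  rw [e1, e2, smul_eq_mul] at h1
  have h2 : ∫ x in (-(1 / 4) : ℝ)..(1 / 4),
      ‖f (ofComplex ((((γ 0 0 : ℝ) / (γ 1 0 : ℝ) + x / (γ 1 0 : ℝ) ^ 2 : ℝ) : ℂ) +
        (y : ℂ) * Complex.I))‖ ^ 2 =
      (γ 1 0 : ℝ) ^ (2 * k) *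
        Psi k (sl k f γ) ((γ 1 1 : ℝ) / (γ 1 0 : ℝ)) ((γ 1 0 : ℝ) ^ 2 * y) := by
    rw [Psi, ← intervalIntegral.integral_const_mul]
    congr 1
    funext t
    have h3 := key k f γ hc t ((γ 1 0 : ℝ) ^ 2 * y) (mul_pos (pow_pos hcR 2) hy)
    rw [mul_div_cancel_left₀ y hc2] at h3
    exact h3
  have h4 := h1.symm.trans h2
  rw [div_mul_eq_mul_div, eq_div_iff hc2, mul_comm]
  exact h4

end Pool.Agent.H37.IC
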