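import Mathlib
import Pool.Agent.H37.IC.Defs

/-!
# [H37 IC Dis] THEOREM IC, chapter 4: the boxes at one height are disjoint

PROOF. Index set `P = {(c, a) : c ∈ s, a < c, a.Coprime c}` (a finset, e.g.
`s.sigma fun c => (Finset.range c).filter (fun a => a.Coprime c)`), `#{a < c, a.Coprime c} = φ c`
(`Nat.totient` is the card of `filter c.Coprime (range c)`; `Nat.coprime_comm`).
`J (c, a) = Ioc (a/c - 1/(4c^2)) (a/c + 1/(4c^2))`.
(a) `J ⊆ Ioc 0 1`: as `c ≥ 2` and `a` is coprime to `c` we have `1 ≤ a ≤ c - 1`, so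
`a/c ≥ 1/c > 1/(4c^2)` and `a/c + 1/(4c^2) ≤ 1 - 1/c + 1/(4c^2) < 1`.
(b) disjoint: for two different pairs the fractions `a/c`, `a'/c'` are different (both reduced), so
`|a/c - a'/c'| ≥ 1/(c c')` (numerator `a c' - a' c` is a nonzero integer), and
`1/(c c') > 1/(4c^2) + 1/(4c'^2)` because `c^2 + c'^2 < 4 c c'`: from `Den`, `c'^2 ≤ 2 c^2` and
`c^2 ≤ 2 c'^2` (`c^2 y ≥ 1/2`, `c'^2 y ≤ 1`); if `c ≤ c'`: `c^2 + c'^2 ≤ 3 c^2 ≤ 3 c c' < 4 c c'`.
(c) `∑_P ∫_J g = ∫_(⋃ J) g ≤ ∫_(Ioc 0 1) g` (`MeasureTheory.integral_biUnion_finset` (or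
`integral_finset_biUnion`), `MeasureTheory.setIntegral_mono_set`; `intervalIntegral.integral_of_le`).
-/

set_option autoImplicit false

namespace Pool.Agent.H37.IC

open Complex

private theorem frac_inj {a c a' c' : ℕ} (hc : 0 < c) (h : a.Coprime c) (h' : a'.Coprime c')
    (he : a * c' = a' * c) : c = c' ∧ a = a' := by
  have h1 : c ∣ c' := by
    have : c ∣ a * c' := ⟨a', by rw [he, mul_comm]⟩
    exact h.symm.dvd_of_dvd_mul_left this
  have h2 : c' ∣ c := by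
    have : c' ∣ a' * c := ⟨a, by rw [← he, mul_comm]⟩
    exact h'.symm.dvd_of_dvd_mul_left this
  have h3 : c = c' := Nat.dvd_antisymm h1 h2
  subst h3
  exact ⟨rfl, Nat.eq_of_mul_eq_mul_right hc he⟩

private theorem sep {c c' : ℝ} (hc : 0 < c) (hc' : 0 < c') (h : c ^ 2 ≤ 2 * c' ^ 2)
    (h' : c' ^ 2 ≤ 2 * c ^ 2) : (1 / (4 * c ^ 2) + 1 / (4 * c' ^ 2)) * (c * c') < 1 := by
  have h1 : c ^ 2 + c' ^ 2 < 4 * (c * c') := by
    rcases le_total c c' with h2 | h2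
    · nlinarith [mul_le_mul_of_nonneg_left h2 hc.le, mul_pos hc hc']
    · nlinarith [mul_le_mul_of_nonneg_left h2 hc'.le, mul_pos hc hc']
  have h2 : (1 / (4 * c ^ 2) + 1 / (4 * c' ^ 2)) * (c * c') = (c ^ 2 + c' ^ 2) / (4 * (c * c')) := by
    field_simp
    ring
  rw [h2, div_lt_one (by positivity)]
  exact h1

theorem dis (g : ℝ → ℝ) (hg : Continuous g) (hg0 : ∀ x, 0 ≤ g x) (y : ℝ) (hy : 0 < y)
    (s : Finset ℕ) (hs : Den y s) (B : ℕ → ℝ)
    (hB : ∀ c ∈ s, ∀ a : ℕ, a < c → a.Coprime c →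
      B c ≤ ∫ x in ((a : ℝ) / c - 1 / (4 * (c : ℝ) ^ 2))..((a : ℝ) / c + 1 / (4 * (c : ℝ) ^ 2)), g x) :
    ∑ c ∈ s, (Nat.totient c : ℝ) * B c ≤ ∫ x in (0 : ℝ)..1, g x := by
  classical
  set P : Finset (Σ _ : ℕ, ℕ) :=
    s.sigma fun c => (Finset.range c).filter (fun a => a.Coprime c) with hP
  set J : (Σ _ : ℕ, ℕ) → Set ℝ := fun p =>
    Set.Ioc ((p.2 : ℝ) / (p.1 : ℝ) - 1 / (4 * (p.1 : ℝ) ^ 2))
      ((p.2 : ℝ) / (p.1 : ℝ) + 1 / (4 * (p.1 : ℝ) ^ 2)) with hJ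
  have hmem : ∀ p ∈ P, p.1 ∈ s ∧ p.2 < p.1 ∧ p.2.Coprime p.1 := by
    intro p hp
    rw [hP, Finset.mem_sigma, Finset.mem_filter, Finset.mem_range] at hp
    exact hp
  have hpos : ∀ p ∈ P, (0 : ℝ) < (p.1 : ℝ) := by
    intro p hp
    have := (hs p.1 (hmem p hp).1).1
    have h2 : 0 < p.1 := by omega
    exact_mod_cast h2
  -- step 1
  have h1 : ∑ c ∈ s, (Nat.totient c : ℝ) * B c ≤ ∑ p ∈ P, ∫ x in J p, g x := by
    rw [hP, Finset.sum_sigma]
    refine Finset.sum_le_sum fun c hc => ?_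
    have h2 : (Nat.totient c : ℝ) * B c =
        ∑ a ∈ (Finset.range c).filter (fun a => a.Coprime c), B c := by
      rw [Finset.sum_const, nsmul_eq_mul]
      congr 2
      rw [Nat.totient_eq_card_coprime]
      congr 1
      refine Finset.filter_congr fun a _ => ?_
      exact Nat.coprime_comm
    rw [h2]
    refine Finset.sum_le_sum fun a ha => ?_
    rw [Finset.mem_filter, Finset.mem_range] at ha
    refine (hB c hc a ha.1 ha.2).trans (le_of_eq ?_)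
    have hc0 : (0 : ℝ) < 1 / (4 * (c : ℝ) ^ 2) := by
      have := (hs c hc).1
      have h3 : (0 : ℝ) < (c : ℝ) := by exact_mod_cast (by omega : 0 < c)
      positivity
    rw [intervalIntegral.integral_of_le (by linarith)]
  -- step 2
  have h2 : ∑ p ∈ P, ∫ x in J p, g x = ∫ x in ⋃ p ∈ P, J p, g x := by
    symm
    refine MeasureTheory.integral_biUnion_finset P (fun p _ => measurableSet_Ioc) ?_ ?_
    · intro p hp q hq hpq
      rw [Finset.mem_coe] at hp hq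
      show Disjoint (J p) (J q)
      rw [Set.disjoint_left]
      intro x hx hx'
      obtain ⟨hp1, hp2, hp3⟩ := hmem p hp
      obtain ⟨hq1, hq2, hq3⟩ := hmem q hq
      have hcp := hpos p hp
      have hcq := hpos q hq
      have hne : p.2 * q.1 ≠ q.2 * p.1 := by
        intro he
        have h3 := frac_inj (by exact_mod_cast hcp) hp3 hq3 he
        apply hpq
        obtain ⟨a, b⟩ := p
        obtain ⟨c, d⟩ := q
        obtain ⟨h4, h5⟩ := h3
        simp only at h4 h5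
        rw [h4, h5]
      have hI : (1 : ℝ) ≤ |(p.2 : ℝ) * q.1 - (q.2 : ℝ) * p.1| := by
        have h3 : ((p.2 : ℤ) * q.1 - (q.2 : ℤ) * p.1) ≠ 0 := by
          intro h4
          apply hne
          have h5 : (p.2 : ℤ) * q.1 = (q.2 : ℤ) * p.1 := by linarith
          exact_mod_cast h5
        have h4 : (1 : ℤ) ≤ |(p.2 : ℤ) * q.1 - (q.2 : ℤ) * p.1| := Int.one_le_abs h3
        exact_mod_cast h4
      have hD : |(p.2 : ℝ) * q.1 - (q.2 : ℝ) * p.1| =
          |(p.2 : ℝ) / p.1 - (q.2 : ℝ) / q.1| * ((p.1 : ℝ) * q.1) := by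
        rw [← abs_of_pos (mul_pos hcp hcq), ← abs_mul]
        congr 1
        field_simp
      have hle : |(p.2 : ℝ) / p.1 - (q.2 : ℝ) / q.1| ≤
          1 / (4 * (p.1 : ℝ) ^ 2) + 1 / (4 * (q.1 : ℝ) ^ 2) := by
        simp only [hJ, Set.mem_Ioc] at hx hx'
        rw [abs_le]
        constructor <;> linarith [hx.1, hx.2, hx'.1, hx'.2]
      obtain ⟨_, hpa, hpb⟩ := hs p.1 hp1
      obtain ⟨_, hqa, hqb⟩ := hs q.1 hq1
      have hs1 : (p.1 : ℝ) ^ 2 ≤ 2 * (q.1 : ℝ) ^ 2 := by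
        have : (p.1 : ℝ) ^ 2 * y ≤ 2 * (q.1 : ℝ) ^ 2 * y := by linarith
        exact le_of_mul_le_mul_right this hy
      have hs2 : (q.1 : ℝ) ^ 2 ≤ 2 * (p.1 : ℝ) ^ 2 := by
        have : (q.1 : ℝ) ^ 2 * y ≤ 2 * (p.1 : ℝ) ^ 2 * y := by linarith
        exact le_of_mul_le_mul_right this hy
      have hlt := sep hcp hcq hs1 hs2
      have hfin := mul_le_mul_of_nonneg_right hle (mul_pos hcp hcq).le
      rw [← hD] at hfin
      linarith
    · intro p _
      exact (hg.integrableOn_Icc).mono_set Set.Ioc_subset_Icc_self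
  -- step 3
  have h3 : ∫ x in ⋃ p ∈ P, J p, g x ≤ ∫ x in Set.Ioc (0 : ℝ) 1, g x := by
    refine MeasureTheory.setIntegral_mono_set
      ((hg.integrableOn_Icc).mono_set Set.Ioc_subset_Icc_self)
      (Filter.Eventually.of_forall hg0) ?_
    refine LE.le.eventuallyLE ?_
    refine Set.iUnion₂_subset fun p hp x hx => ?_
    obtain ⟨hp1, hp2, hp3⟩ := hmem p hp
    have hc2 := (hs p.1 hp1).1
    have hcp := hpos p hp
    have hc2R : (2 : ℝ) ≤ (p.1 : ℝ) := by exact_mod_cast hc2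
    have ha1 : 1 ≤ p.2 := by
      rcases Nat.eq_zero_or_pos p.2 with h0 | h0
      · rw [h0, Nat.coprime_zero_left] at hp3
        omega
      · exact h0
    have ha1R : (1 : ℝ) ≤ (p.2 : ℝ) := by exact_mod_cast ha1
    have ha2R : (p.2 : ℝ) ≤ (p.1 : ℝ) - 1 := by
      have : p.2 + 1 ≤ p.1 := hp2
      have h4 : (p.2 : ℝ) + 1 ≤ (p.1 : ℝ) := by exact_mod_cast this
      linarith
    have e1 : 1 / (4 * (p.1 : ℝ) ^ 2) ≤ 1 / (p.1 : ℝ) := by
      apply one_div_le_one_div_of_le hcp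
      nlinarith
    have e2 : 1 / (p.1 : ℝ) ≤ (p.2 : ℝ) / (p.1 : ℝ) :=
      div_le_div_of_nonneg_right ha1R hcp.le
    have e3 : (p.2 : ℝ) / (p.1 : ℝ) ≤ 1 - 1 / (p.1 : ℝ) := by
      rw [div_le_iff₀ hcp, sub_mul, one_div, inv_mul_cancel₀ hcp.ne', one_mul]
      exact ha2R
    simp only [hJ, Set.mem_Ioc] at hx
    rw [Set.mem_Ioc]
    constructor <;> linarith [hx.1, hx.2]
  rw [intervalIntegral.integral_of_le zero_le_one]
  exact h1.trans (h2.le.trans h3)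

end Pool.Agent.H37.IC
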