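import Mathlib
import Pool.Agent.H37.IC.Defs

/-!
# [H37 IC Mel] THEOREM IC, chapter 4: integration in `y`

PROOF. Put `e = k - 1 + σ > 1`, `F n y = ‖A n‖^2 exp(-(4 π n y)) y^(e-1)` on `Ioi 0`.
(a) `n ≥ 1`: `∫_(Ioi 0) F n = Γ(e) (4π)^(-e) ‖A n‖^2 / n^e`
(`Real.integral_rpow_mul_exp_neg_mul_Ioi`: `∫ t^(a-1) exp(-(r t)) = (1/r)^a Γ(a)`), `F 0 = 0` since
`A 0 = 0`. All `F n` are integrable (`Real.GammaIntegral_convergent` rescaled, or
`integrableOn_rpow_mul_exp_neg_mul_rpow`, or: the integral is nonzero, so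
`MeasureTheory.Integrable` by contraposition of `integral_undef`; if `A n = 0` trivial).
(b) `MeasureTheory.hasSum_integral_of_summable_integral_norm` (norms = the functions themselves,
`hs` gives the summability of the integrals): `∫_(Ioi 0) ∑' n, F n y = Γ(e) (4π)^(-e) ∑' ..`.
The sum function `G y = y^(e-1) S(y)`, `S(y) = ∑' n, ‖A n‖^2 exp(-(4 π n y))` (`tsum_mul_right`), is
integrable: the right side is positive unless all `A n = 0` (in that case `G = 0`), so it cannot be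
the junk value `0` of a non-integrable function.
(c) For `N` and `y > 0` let `s y = (Finset.Icc 2 N).filter (1/2 ≤ c^2 y ≤ 1)` : `Den y (s y)`, so by
`hS`: `∑_(c in Icc 2 N) indicator (Icc (1/(2c^2)) (1/c^2)) (fun y => φ(c) δ c^(2k)/c^2 * y^(e-1)) y ≤ G y`.
Integrate (`setIntegral_mono_on`, finite sum of integrals of indicators): the integral of
`y^(e-1)` over `Icc (1/(2c^2)) (1/c^2)` is `≥ (1/(2c^2)) * (1/(2c^2))^(e-1) = (2c^2)^(-e)` (`e - 1 ≥ 0`,
the integrand is at least its value at the left end), and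
`c^(2k)/c^2 * (2c^2)^(-e) = 2^(-e) c^(2k-2-2e) = 2^(-e) c^(-2σ)`.
-/

set_option autoImplicit false

namespace Pool.Agent.H37.IC

open Complex

open MeasureTheory Set in
private theorem oneInt {e : ℝ} (he : 1 < e) (C : ℝ) (n : ℕ) (hn : 1 ≤ n) :
    IntegrableOn (fun y : ℝ => C * Real.exp (-(4 * Real.pi * n * y)) * y ^ (e - 1)) (Ioi 0) ∧
    ∫ y in Ioi (0 : ℝ), C * Real.exp (-(4 * Real.pi * n * y)) * y ^ (e - 1) =
      Real.Gamma e * (4 * Real.pi) ^ (-e) * (C / (n : ℝ) ^ e) := by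
  have hnR : (0 : ℝ) < (n : ℝ) := by exact_mod_cast hn
  have hb : 0 < 4 * Real.pi * (n : ℝ) := by positivity
  have hfun : (fun y : ℝ => C * Real.exp (-(4 * Real.pi * n * y)) * y ^ (e - 1)) =
      fun y : ℝ => C * (y ^ (e - 1) * Real.exp (-(4 * Real.pi * n * y))) := by
    funext y
    ring
  constructor
  · rw [hfun]
    refine Integrable.const_mul ?_ C
    have h1 := integrableOn_rpow_mul_exp_neg_mul_rpow (p := 1) (s := e - 1) (b := 4 * Real.pi * n)
      (by linarith) one_pos hb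
    refine h1.congr_fun (fun y hy => ?_) measurableSet_Ioi
    simp only [Real.rpow_one, neg_mul]
  · rw [hfun, integral_const_mul, Real.integral_rpow_mul_exp_neg_mul_Ioi (by linarith) hb]
    rw [one_div, Real.inv_rpow hb.le, Real.mul_rpow (by positivity) hnR.le, mul_inv,
      Real.rpow_neg (by positivity)]
    field_simp

open MeasureTheory Set in
private theorem sumInt {e : ℝ} (he : 1 < e) (A : ℕ → ℂ) (hA0 : A 0 = 0)
    (hs : Summable fun n : ℕ => ‖A n‖ ^ 2 / (n : ℝ) ^ e) :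
    IntegrableOn (fun y : ℝ => (∑' n : ℕ, ‖A n‖ ^ 2 * Real.exp (-(4 * Real.pi * n * y))) *
      y ^ (e - 1)) (Ioi 0) ∧
    ∫ y in Ioi (0 : ℝ), (∑' n : ℕ, ‖A n‖ ^ 2 * Real.exp (-(4 * Real.pi * n * y))) * y ^ (e - 1) =
      Real.Gamma e * (4 * Real.pi) ^ (-e) * ∑' n : ℕ, ‖A n‖ ^ 2 / (n : ℝ) ^ e := by
  set F : ℕ → ℝ → ℝ := fun n y =>
    ‖A n‖ ^ 2 * Real.exp (-(4 * Real.pi * n * y)) * y ^ (e - 1) with hF
  have hint : ∀ n, IntegrableOn (F n) (Ioi 0) := by
    intro n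
    rcases Nat.eq_zero_or_pos n with h0 | h0
    · subst h0
      have : F 0 = fun _ => 0 := by
        funext y
        simp [hF, hA0]
      rw [this]
      exact integrableOn_zero
    · exact (oneInt he (‖A n‖ ^ 2) n h0).1
  have hval : ∀ n, ∫ y in Ioi (0 : ℝ), F n y =
      Real.Gamma e * (4 * Real.pi) ^ (-e) * (‖A n‖ ^ 2 / (n : ℝ) ^ e) := by
    intro n
    rcases Nat.eq_zero_or_pos n with h0 | h0
    · subst h0
      simp [hF, hA0]
    · exact (oneInt he (‖A n‖ ^ 2) n h0).2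
  have hF0 : ∀ n, ∀ y ∈ Ioi (0 : ℝ), 0 ≤ F n y := by
    intro n y hy
    rw [mem_Ioi] at hy
    have := Real.rpow_nonneg hy.le (e - 1)
    positivity
  have hnorm : ∀ n, ∫ y in Ioi (0 : ℝ), ‖F n y‖ = ∫ y in Ioi (0 : ℝ), F n y := by
    intro n
    refine setIntegral_congr_fun measurableSet_Ioi fun y hy => ?_
    exact Real.norm_of_nonneg (hF0 n y hy)
  have hsum : Summable fun n => ∫ y in Ioi (0 : ℝ), ‖F n y‖ := by
    simp only [hnorm, hval]
    exact hs.mul_left _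
  have hH := hasSum_integral_of_summable_integral_norm hint hsum
  have hG : (fun y : ℝ => ∑' n : ℕ, F n y) = fun y : ℝ =>
      (∑' n : ℕ, ‖A n‖ ^ 2 * Real.exp (-(4 * Real.pi * n * y))) * y ^ (e - 1) := by
    funext y
    rw [← tsum_mul_right]
  have hI : ∫ y in Ioi (0 : ℝ), ∑' n : ℕ, F n y =
      Real.Gamma e * (4 * Real.pi) ^ (-e) * ∑' n : ℕ, ‖A n‖ ^ 2 / (n : ℝ) ^ e := by
    rw [← hH.tsum_eq]
    simp only [hval]
    rw [tsum_mul_left]
  have hGi : IntegrableOn (fun y : ℝ => ∑' n : ℕ, F n y) (Ioi 0) := by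
    by_contra hno
    have h0 : ∫ y in Ioi (0 : ℝ), ∑' n : ℕ, F n y = 0 := integral_undef hno
    rw [h0] at hH
    have hz := (hasSum_zero_iff_of_nonneg (fun n => by
      rw [hval]
      have := Real.Gamma_nonneg_of_nonneg (show (0 : ℝ) ≤ e by linarith)
      have := Real.rpow_nonneg (show (0 : ℝ) ≤ 4 * Real.pi by positivity) (-e)
      have := Real.rpow_nonneg (show (0 : ℝ) ≤ (n : ℝ) by positivity) e
      positivity)).mp hH
    have hA : ∀ n, A n = 0 := by
      intro n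
      rcases Nat.eq_zero_or_pos n with h1 | h1
      · rw [h1, hA0]
      · have h2 := congrFun hz n
        simp only [hval, Pi.zero_apply] at h2
        have h3 : Real.Gamma e ≠ 0 := (Real.Gamma_pos_of_pos (by linarith)).ne'
        have h4 : (4 * Real.pi : ℝ) ^ (-e) ≠ 0 := (Real.rpow_pos_of_pos (by positivity) _).ne'
        have hnR : (0 : ℝ) < (n : ℝ) := by exact_mod_cast h1
        have h5 : (n : ℝ) ^ e ≠ 0 := (Real.rpow_pos_of_pos hnR _).ne'
        have h6 : ‖A n‖ ^ 2 / (n : ℝ) ^ e = 0 := by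
          rcases mul_eq_zero.mp h2 with h7 | h7
          · exact absurd h7 (mul_ne_zero h3 h4)
          · exact h7
        have h7 : ‖A n‖ ^ 2 = 0 := by
          rcases div_eq_zero_iff.mp h6 with h8 | h8
          · exact h8
          · exact absurd h8 h5
        have h8 : ‖A n‖ = 0 := pow_eq_zero_iff (two_ne_zero) |>.mp h7
        exact norm_eq_zero.mp h8
    apply hno
    have : (fun y : ℝ => ∑' n : ℕ, F n y) = fun _ => 0 := by
      funext y
      simp [hF, hA]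
    rw [this]
    exact integrableOn_zero
  rw [hG] at hGi hI
  exact ⟨hGi, hI⟩

open MeasureTheory Set in
private theorem step (a b K : ℝ) (ha : 0 < a) (hab : a ≤ b) :
    IntegrableOn ((Icc a b).indicator fun _ : ℝ => K) (Ioi 0) ∧
    ∫ y in Ioi (0 : ℝ), (Icc a b).indicator (fun _ : ℝ => K) y = K * (b - a) := by
  have hsub : Ioi (0 : ℝ) ∩ Icc a b = Icc a b :=
    inter_eq_right.mpr fun x hx => mem_Ioi.mpr (ha.trans_le hx.1)
  constructor
  · have h1 : Integrable ((Icc a b).indicator fun _ : ℝ => K) volume := by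
      rw [integrable_indicator_iff measurableSet_Icc]
      exact continuous_const.integrableOn_Icc
    exact h1.integrableOn
  · rw [setIntegral_indicator measurableSet_Icc, hsub, setIntegral_const,
      Real.volume_real_Icc_of_le hab, smul_eq_mul, mul_comm]

open MeasureTheory Set in
theorem mel (k : ℕ) (hk : 1 ≤ k) (A : ℕ → ℂ) (hA0 : A 0 = 0) (σ : ℝ) (hσ : 1 < σ)
    (hs : Summable fun n : ℕ => ‖A n‖ ^ 2 / (n : ℝ) ^ ((k : ℝ) - 1 + σ)) (δ : ℝ) (hδ : 0 ≤ δ)
    (hS : ∀ y : ℝ, 0 < y → ∀ s : Finset ℕ, Den y s →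
      ∑ c ∈ s, (Nat.totient c : ℝ) * (δ * ((c : ℝ) ^ (2 * k) / (c : ℝ) ^ 2)) ≤
        ∑' n : ℕ, ‖A n‖ ^ 2 * Real.exp (-(4 * Real.pi * n * y))) (N : ℕ) :
    δ * (2 : ℝ) ^ (-((k : ℝ) - 1 + σ)) *
        ∑ c ∈ Finset.Icc 2 N, (Nat.totient c : ℝ) * (c : ℝ) ^ (-(2 * σ)) ≤
      Real.Gamma ((k : ℝ) - 1 + σ) * (4 * Real.pi) ^ (-((k : ℝ) - 1 + σ)) *
        ∑' n : ℕ, ‖A n‖ ^ 2 / (n : ℝ) ^ ((k : ℝ) - 1 + σ) := by
  classical
  have hkR : (1 : ℝ) ≤ (k : ℝ) := by exact_mod_cast hk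
  set e : ℝ := (k : ℝ) - 1 + σ with he
  have he1 : 1 < e := by rw [he]; linarith
  obtain ⟨hGi, hG⟩ := sumInt he1 A hA0 hs
  rw [← hG]
  set K : ℕ → ℝ := fun c => (Nat.totient c : ℝ) * (δ * ((c : ℝ) ^ (2 * k) / (c : ℝ) ^ 2)) with hK
  set a : ℕ → ℝ := fun c => 1 / (2 * (c : ℝ) ^ 2) with ha
  set b : ℕ → ℝ := fun c => 1 / (c : ℝ) ^ 2 with hb
  have hcpos : ∀ c ∈ Finset.Icc 2 N, (0 : ℝ) < (c : ℝ) := by
    intro c hc
    have := (Finset.mem_Icc.mp hc).1
    exact_mod_cast (by omega : 0 < c)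
  have hapos : ∀ c ∈ Finset.Icc 2 N, 0 < a c := by
    intro c hc
    have := hcpos c hc
    simp only [ha]
    positivity
  have hab : ∀ c ∈ Finset.Icc 2 N, b c - a c = a c := by
    intro c hc
    have := hcpos c hc
    simp only [ha, hb]
    field_simp
    ring
  have hab2 : ∀ c ∈ Finset.Icc 2 N, a c ≤ b c := by
    intro c hc
    have h1 := hab c hc
    have h2 := hapos c hc
    linarith
  have hK0 : ∀ c, 0 ≤ K c := by
    intro c
    simp only [hK]
    positivity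
  -- the pointwise inequality
  have hpt : ∀ y ∈ Ioi (0 : ℝ), ∑ c ∈ Finset.Icc 2 N,
      (Icc (a c) (b c)).indicator (fun _ : ℝ => K c * (a c) ^ (e - 1)) y ≤
      (∑' n : ℕ, ‖A n‖ ^ 2 * Real.exp (-(4 * Real.pi * n * y))) * y ^ (e - 1) := by
    intro y hy
    rw [mem_Ioi] at hy
    set s : Finset ℕ := (Finset.Icc 2 N).filter
      (fun c => 1 / 2 ≤ (c : ℝ) ^ 2 * y ∧ (c : ℝ) ^ 2 * y ≤ 1) with hsd
    have hDen : Den y s := by
      intro c hc
      rw [hsd, Finset.mem_filter] at hc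
      exact ⟨(Finset.mem_Icc.mp hc.1).1, hc.2.1, hc.2.2⟩
    have h1 := hS y hy s hDen
    have h2 := mul_le_mul_of_nonneg_right h1 (Real.rpow_nonneg hy.le (e - 1))
    refine le_trans ?_ h2
    rw [Finset.sum_mul, hsd, Finset.sum_filter]
    refine Finset.sum_le_sum fun c hc => ?_
    have hc0 := hcpos c hc
    by_cases hyc : y ∈ Icc (a c) (b c)
    · rw [indicator_of_mem hyc]
      obtain ⟨hy1, hy2⟩ := hyc
      have hcond : 1 / 2 ≤ (c : ℝ) ^ 2 * y ∧ (c : ℝ) ^ 2 * y ≤ 1 := by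
        constructor
        · have h3 : (c : ℝ) ^ 2 * a c ≤ (c : ℝ) ^ 2 * y :=
            mul_le_mul_of_nonneg_left hy1 (by positivity)
          have h4 : (c : ℝ) ^ 2 * a c = 1 / 2 := by
            simp only [ha]
            field_simp
          linarith
        · have h3 : (c : ℝ) ^ 2 * y ≤ (c : ℝ) ^ 2 * b c :=
            mul_le_mul_of_nonneg_left hy2 (by positivity)
          have h4 : (c : ℝ) ^ 2 * b c = 1 := by
            simp only [hb]
            field_simp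
          linarith
      rw [if_pos hcond]
      exact mul_le_mul_of_nonneg_left
        (Real.rpow_le_rpow (hapos c hc).le hy1 (by linarith)) (hK0 c)
    · rw [indicator_of_notMem hyc]
      split_ifs
      · exact mul_nonneg (hK0 c) (Real.rpow_nonneg hy.le _)
      · exact le_rfl
  have hLi : ∀ c ∈ Finset.Icc 2 N, IntegrableOn
      ((Icc (a c) (b c)).indicator (fun _ : ℝ => K c * (a c) ^ (e - 1))) (Ioi 0) :=
    fun c hc => (step (a c) (b c) _ (hapos c hc) (hab2 c hc)).1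
  have hfin := setIntegral_mono_on (integrable_finsetSum _ hLi) hGi measurableSet_Ioi hpt
  rw [integral_finsetSum _ hLi] at hfin
  refine le_trans (le_of_eq ?_) hfin
  rw [Finset.mul_sum]
  refine Finset.sum_congr rfl fun c hc => ?_
  rw [(step (a c) (b c) _ (hapos c hc) (hab2 c hc)).2, hab c hc]
  have hc0 := hcpos c hc
  have e1 : (a c) ^ (e - 1) * a c = (2 : ℝ) ^ (-e) * (c : ℝ) ^ (-(2 * e)) := by
    have h1 : (a c) ^ (e - 1) * a c = (a c) ^ e := by
      rw [← Real.rpow_add_one (hapos c hc).ne']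
      congr 1
      ring
    rw [h1]
    simp only [ha]
    rw [one_div, Real.inv_rpow (by positivity), ← Real.rpow_neg (by positivity),
      Real.mul_rpow (by norm_num) (by positivity), ← Real.rpow_natCast (c : ℝ) 2,
      ← Real.rpow_mul hc0.le]
    congr 2
    push_cast
    ring
  have e2 : (c : ℝ) ^ (2 * k) / (c : ℝ) ^ 2 * (c : ℝ) ^ (-(2 * e)) = (c : ℝ) ^ (-(2 * σ)) := by
    rw [← Real.rpow_natCast (c : ℝ) (2 * k), ← Real.rpow_natCast (c : ℝ) 2, ← Real.rpow_sub hc0,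
      ← Real.rpow_add hc0]
    congr 1
    rw [he]
    push_cast
    ring
  calc δ * (2 : ℝ) ^ (-e) * ((Nat.totient c : ℝ) * (c : ℝ) ^ (-(2 * σ)))
      = δ * (2 : ℝ) ^ (-e) * ((Nat.totient c : ℝ) *
        ((c : ℝ) ^ (2 * k) / (c : ℝ) ^ 2 * (c : ℝ) ^ (-(2 * e)))) := by rw [e2]
    _ = K c * ((2 : ℝ) ^ (-e) * (c : ℝ) ^ (-(2 * e))) := by
        simp only [hK]
        ring
    _ = K c * (a c) ^ (e - 1) * a c := by rw [← e1]; ring

end Pool.Agent.H37.IC
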