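import Mathlib
import Pool.Agent.H37.IC.Defs
import Pool.Agent.H13.IC.Qb
import Pool.Agent.H11.SC.Pars

/-!
# THEOREM IC, chapter 4: Parseval
-/

set_option autoImplicit false

namespace Pool.Agent.H37.IC

open Complex UpperHalfPlane MatrixGroups Pool.Agent.H13.IC PowerSeries

theorem ee_split (x y : ℝ) (n : ℕ) :
    ee ((x : ℂ) + (y : ℂ) * Complex.I) ^ n =
      ((Real.exp (-(2 * Real.pi * n * y)) : ℝ) : ℂ) * cexp (2 * (Real.pi : ℂ) * Complex.I * n * x) := by
  rw [ee, ← Complex.exp_nat_mul, Complex.ofReal_exp, ← Complex.exp_add]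
  congr 1
  push_cast
  ring_nf
  rw [Complex.I_sq]
  ring

theorem summable_norm_exp {u : PowerSeries ℂ} (hu : Cvg u) (y : ℝ) (hy : 0 < y) :
    Summable fun n : ℕ => ‖coeff n u‖ * Real.exp (-(2 * Real.pi * n * y)) := by
  have h1 : Real.exp (-(2 * Real.pi * y)) < 1 := by
    rw [Real.exp_lt_one_iff]
    have := Real.pi_pos
    have : 0 < 2 * Real.pi * y := by positivity
    linarith
  refine (hu (Real.exp (-(2 * Real.pi * y))) (Real.exp_pos _).le h1).congr fun n => ?_
  rw [← Real.exp_nat_mul]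
  congr 2
  ring

/-- Parseval's formula. -/
theorem pars {u : PowerSeries ℂ} (hu : Cvg u) (y : ℝ) (hy : 0 < y) :
    ∫ x in (0 : ℝ)..1, ‖ev u ((x : ℂ) + (y : ℂ) * Complex.I)‖ ^ 2 =
      ∑' n : ℕ, ‖coeff n u‖ ^ 2 * Real.exp (-(4 * Real.pi * n * y)) := by
  have h1 := Pool.Agent.H11.SC.parseval
    (fun n => coeff n u * ((Real.exp (-(2 * Real.pi * n * y)) : ℝ) : ℂ)) (by
      refine (summable_norm_exp hu y hy).congr fun n => ?_
      rw [norm_mul, Complex.norm_real, Real.norm_of_nonneg (Real.exp_pos _).le])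
  have h2 : ∀ x : ℝ, ev u ((x : ℂ) + (y : ℂ) * Complex.I) =
      ∑' n : ℕ, coeff n u * ((Real.exp (-(2 * Real.pi * n * y)) : ℝ) : ℂ) *
        cexp (2 * (Real.pi : ℂ) * Complex.I * n * x) := by
    intro x
    rw [ev, evq]
    refine tsum_congr fun n => ?_
    rw [ee_split]
    ring
  simp only [h2]
  rw [h1]
  refine tsum_congr fun n => ?_
  rw [norm_mul, Complex.norm_real, Real.norm_of_nonneg (Real.exp_pos _).le, mul_pow,
    ← Real.exp_nat_mul]
  congr 2
  push_cast
  ring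

theorem pars_summable {u : PowerSeries ℂ} (hu : Cvg u) (y : ℝ) (hy : 0 < y) :
    Summable fun n : ℕ => ‖coeff n u‖ ^ 2 * Real.exp (-(4 * Real.pi * n * y)) := by
  have h1 := summable_norm_exp hu y hy
  have h2 := h1.tendsto_atTop_zero
  refine Summable.of_norm_bounded_eventually_nat (g := fun n : ℕ => ‖coeff n u‖ * Real.exp (-(2 * Real.pi * n * y))) h1 ?_
  filter_upwards [h2.eventually (gt_mem_nhds one_pos)] with n hn
  have h0 : 0 ≤ ‖coeff n u‖ * Real.exp (-(2 * Real.pi * n * y)) := by positivity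
  have h3 : ‖coeff n u‖ ^ 2 * Real.exp (-(4 * Real.pi * n * y)) =
      (‖coeff n u‖ * Real.exp (-(2 * Real.pi * n * y))) ^ 2 := by
    rw [mul_pow, ← Real.exp_nat_mul]
    congr 2
    push_cast
    ring
  rw [h3, Real.norm_of_nonneg (by positivity)]
  nlinarith

end Pool.Agent.H37.IC
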