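import Mathlib
import Pool.Agent.H37.IC.Defs

/-!
# [H37 IC Psi] THEOREM IC, chapter 4: the box integrals are bounded below

PROOF. `H z = h (ofComplex z)` is holomorphic on `{0 < im z}` (this is `Hol h`).
(a) `im (pt s t v) = v / (t^2 + v^2) > 0` for `v > 0`, so `(s, v, t) ↦ H (pt s t v)` is continuous on
`v > 0`. (b) For fixed `(s, v)`, `v > 0`, the integrand is a continuous nonnegative function of `t` in
`[-1/4, 1/4]`; if its integral vanishes it is identically zero there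
(`intervalIntegral.integral_pos_iff_support_of_nonneg_ae` or
`intervalIntegral.integral_pos`, or `MeasureTheory.setIntegral_eq_zero_iff_of_nonneg_ae` and
continuity), so `H` vanishes at all points `pt s t v`, `|t| ≤ 1/4`; they accumulate at `pt s 0 v`
(`t ↦ pt s t v` is injective and continuous), so `H = 0` on the connected half plane by the identity
theorem (`AnalyticOnNhd.eqOn_zero_of_preconnected_of_frequently_eq_zero`; look at
`Pool.Agent.H13.IC.Ho` for the half plane being preconnected), contradiction with `h0`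
(`ofComplex_apply`). So `Psi k h s v > 0`.
(c) `(s, v) ↦ Psi k h s v` is continuous on `v > 0`: e.g. write `v` as `max v (1/4)` in the integrand,
which makes it jointly continuous everywhere, and use
`intervalIntegral.continuous_parametric_intervalIntegral_of_continuous'` (parameter space `ℝ × ℝ`).
(d) Compactness of `[0, R] × [1/2, 1]` (`IsCompact.exists_isMinOn`) gives `δ`; every `s` is `s' + n R`
with `s' ∈ [0, R)`, `n` an integer (`toIcoMod`, `existsUnique_sub_zsmul_mem_Ico`), and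
`h (ofComplex (pt s t v)) = h (ofComplex (pt s' t v))` by `hper` used `|n|` times
(`pt s t v = pt s' t v - n R`, `ofComplex` of a translate is `+ᵥ`).
-/

set_option autoImplicit false

namespace Pool.Agent.H37.IC

open Complex UpperHalfPlane MatrixGroups Pool.Agent.H13.IC

private theorem den_ne0 (t v : ℝ) (hv : 0 < v) : (t : ℂ) + (v : ℂ) * Complex.I ≠ 0 := by
  intro h
  have h1 := congrArg Complex.im h
  simp only [Complex.add_im, Complex.ofReal_im, Complex.mul_im, Complex.ofReal_re, Complex.I_im,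
    Complex.I_re, Complex.zero_im, mul_one, mul_zero, add_zero, zero_add] at h1
  exact hv.ne' h1

private theorem pt_im (s t v : ℝ) (hv : 0 < v) : 0 < (pt s t v).im := by
  have h1 : (pt s t v).im = v / Complex.normSq ((t : ℂ) + (v : ℂ) * Complex.I) := by
    unfold pt
    rw [Complex.sub_im, Complex.ofReal_im, sub_zero, neg_div, one_div, Complex.neg_im,
      Complex.inv_im]
    have h2 : ((t : ℂ) + (v : ℂ) * Complex.I).im = v := by
      simp only [Complex.add_im, Complex.ofReal_im, Complex.mul_im, Complex.ofReal_re,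
        Complex.I_im, Complex.I_re, mul_one, mul_zero, add_zero, zero_add]
    rw [h2, neg_div, neg_neg]
  rw [h1]
  exact div_pos hv (Complex.normSq_pos.2 (den_ne0 t v hv))

private theorem up_open' : IsOpen {z : ℂ | 0 < z.im} :=
  isOpen_lt continuous_const Complex.continuous_im

private theorem up_pre' : IsPreconnected {z : ℂ | 0 < z.im} :=
  (convex_halfSpace_im_gt 0).isPreconnected

/-- the modified integrand -/
private noncomputable def FF (k : ℕ) (h : ℍ → ℂ) (p : ℝ × ℝ) (t : ℝ) : ℝ :=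
  (‖(t : ℂ) + ((max p.2 (1 / 4) : ℝ) : ℂ) * Complex.I‖ ^ (2 * k))⁻¹ *
    ‖h (ofComplex (pt p.1 t (max p.2 (1 / 4))))‖ ^ 2

private theorem max_pos' (v : ℝ) : 0 < max v (1 / 4) := lt_max_of_lt_right (by norm_num)

private theorem FF_cont (k : ℕ) (h : ℍ → ℂ) (hh : Hol h) :
    Continuous (Function.uncurry (FF k h)) := by
  have hm : Continuous fun q : (ℝ × ℝ) × ℝ => ((max q.1.2 (1 / 4) : ℝ) : ℂ) :=
    Complex.continuous_ofReal.comp ((continuous_snd.comp continuous_fst).max continuous_const)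
  have hd : Continuous fun q : (ℝ × ℝ) × ℝ =>
      ((q.2 : ℝ) : ℂ) + ((max q.1.2 (1 / 4) : ℝ) : ℂ) * Complex.I :=
    (Complex.continuous_ofReal.comp continuous_snd).add (hm.mul continuous_const)
  have hd0 : ∀ q : (ℝ × ℝ) × ℝ,
      ((q.2 : ℝ) : ℂ) + ((max q.1.2 (1 / 4) : ℝ) : ℂ) * Complex.I ≠ 0 := fun q =>
    den_ne0 q.2 (max q.1.2 (1 / 4)) (max_pos' q.1.2)
  have hp : Continuous fun q : (ℝ × ℝ) × ℝ => pt q.1.1 q.2 (max q.1.2 (1 / 4)) := by
    unfold pt
    exact (continuous_const.div hd hd0).sub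
      (Complex.continuous_ofReal.comp (continuous_fst.comp continuous_fst))
  have hH : Continuous fun q : (ℝ × ℝ) × ℝ =>
      (h ∘ ofComplex) (pt q.1.1 q.2 (max q.1.2 (1 / 4))) := by
    have hh' : DifferentiableOn ℂ (h ∘ ofComplex) {z | 0 < z.im} := hh
    exact ContinuousOn.comp_continuous (g := h ∘ ofComplex) (s := {z | 0 < z.im})
      hh'.continuousOn hp fun q => pt_im _ _ _ (max_pos' q.1.2)
  have h1 : Continuous fun q : (ℝ × ℝ) × ℝ =>
      (‖((q.2 : ℝ) : ℂ) + ((max q.1.2 (1 / 4) : ℝ) : ℂ) * Complex.I‖ ^ (2 * k))⁻¹ *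
        ‖(h ∘ ofComplex) (pt q.1.1 q.2 (max q.1.2 (1 / 4)))‖ ^ 2 := by
    refine Continuous.mul (Continuous.inv₀ (hd.norm.pow _) fun q => ?_) (hH.norm.pow 2)
    exact pow_ne_zero _ (norm_ne_zero_iff.2 (hd0 q))
  exact h1

private theorem Psi_eq (k : ℕ) (h : ℍ → ℂ) (s v : ℝ) (hv : 1 / 2 ≤ v) :
    Psi k h s v = ∫ t in (-(1 / 4) : ℝ)..(1 / 4), FF k h (s, v) t := by
  have h1 : max v (1 / 4) = v := max_eq_left (by linarith)
  unfold Psi FF
  simp only [h1]

private theorem FF_pos (k : ℕ) (h : ℍ → ℂ) (hh : Hol h) (h0 : ∃ τ, h τ ≠ 0) (p : ℝ × ℝ) :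
    0 < ∫ t in (-(1 / 4) : ℝ)..(1 / 4), FF k h p t := by
  have hcont : Continuous fun t => FF k h p t :=
    (FF_cont k h hh).comp (continuous_const.prodMk continuous_id)
  have hnn : ∀ t, 0 ≤ FF k h p t := fun t => by
    unfold FF
    positivity
  obtain ⟨v, hv⟩ : ∃ v : ℝ, v = max p.2 (1 / 4) := ⟨_, rfl⟩
  have hv0 : 0 < v := by rw [hv]; exact max_pos' p.2
  refine intervalIntegral.integral_pos (by norm_num) hcont.continuousOn (fun t _ => hnn t) ?_
  by_contra hcon
  push Not at hcon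
  have hz : ∀ t ∈ Set.Icc (-(1 / 4) : ℝ) (1 / 4), (h ∘ ofComplex) (pt p.1 t v) = 0 := by
    intro t ht
    have h1 := le_antisymm (hcon t ht) (hnn t)
    unfold FF at h1
    rw [← hv] at h1
    have h2 : ‖(t : ℂ) + (v : ℂ) * Complex.I‖ ^ (2 * k) ≠ 0 :=
      pow_ne_zero _ (norm_ne_zero_iff.2 (den_ne0 t v hv0))
    rcases mul_eq_zero.1 h1 with h3 | h3
    · exact absurd h3 (inv_ne_zero h2)
    · exact norm_eq_zero.1 (pow_eq_zero_iff (two_ne_zero)|>.1 h3)
  have hfa : AnalyticOnNhd ℂ (h ∘ ofComplex) {z | 0 < z.im} :=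
    DifferentiableOn.analyticOnNhd hh up_open'
  have hcp : Continuous fun t : ℝ => pt p.1 t v := by
    unfold pt
    exact (continuous_const.div (Complex.continuous_ofReal.add continuous_const)
      fun t => den_ne0 t v hv0).sub continuous_const
  have hinj : ∀ t : ℝ, pt p.1 t v = pt p.1 0 v → t = 0 := by
    intro t ht
    unfold pt at ht
    have h1 := sub_left_injective ht
    simp only [neg_div, neg_inj, one_div, inv_inj, add_left_inj] at h1
    exact_mod_cast h1
  have htend : Filter.Tendsto (fun t : ℝ => pt p.1 t v) (nhdsWithin 0 {0}ᶜ)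
      (nhdsWithin (pt p.1 0 v) {pt p.1 0 v}ᶜ) := by
    refine tendsto_nhdsWithin_of_tendsto_nhds_of_eventually_within _
      ((hcp.tendsto 0).mono_left nhdsWithin_le_nhds) ?_
    filter_upwards [self_mem_nhdsWithin] with t ht ht'
    exact ht (hinj t ht')
  have hev : ∀ᶠ t : ℝ in nhdsWithin 0 {0}ᶜ, (h ∘ ofComplex) (pt p.1 t v) = 0 := by
    have h1 : Set.Icc (-(1 / 4) : ℝ) (1 / 4) ∈ nhds (0 : ℝ) :=
      Icc_mem_nhds (by norm_num) (by norm_num)
    exact Filter.Eventually.filter_mono nhdsWithin_le_nhds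
      (Filter.mem_of_superset h1 fun t ht => hz t ht)
  have hfr : ∃ᶠ z in nhdsWithin (pt p.1 0 v) {pt p.1 0 v}ᶜ, (h ∘ ofComplex) z = 0 :=
    htend.frequently hev.frequently
  have heq := hfa.eqOn_zero_of_preconnected_of_frequently_eq_zero up_pre'
    (pt_im p.1 0 v hv0) hfr
  obtain ⟨τ, hτ⟩ := h0
  apply hτ
  have h5 := heq τ.2
  rw [Function.comp_apply, ofComplex_apply] at h5
  exact h5

private theorem per_int (h : ℍ → ℂ) (R : ℝ) (hper : ∀ τ : ℍ, h (R +ᵥ τ) = h τ) (n : ℤ) (z : ℂ)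
    (hz : 0 < z.im) : h (ofComplex (z + (n : ℂ) * (R : ℂ))) = h (ofComplex z) := by
  have hone : ∀ w : ℂ, 0 < w.im → h (ofComplex (w + (R : ℂ))) = h (ofComplex w) := by
    intro w hw
    have h1 : ofComplex w = ⟨w, hw⟩ := ofComplex_apply_of_im_pos hw
    have h2 : w + (R : ℂ) = ((R +ᵥ (⟨w, hw⟩ : ℍ) : ℍ) : ℂ) := by
      rw [UpperHalfPlane.coe_vadd, add_comm]
    rw [h1, h2, ofComplex_apply, hper]
  have him : ∀ m : ℤ, 0 < (z + (m : ℂ) * (R : ℂ)).im := by
    intro m
    have h3 : ((m : ℂ) * (R : ℂ)).im = 0 := by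
      have h4 : ((m : ℂ) * (R : ℂ)) = (((m : ℝ) * R : ℝ) : ℂ) := by push_cast; rfl
      rw [h4, Complex.ofReal_im]
    rw [Complex.add_im, h3, add_zero]
    exact hz
  induction n using Int.induction_on with
  | zero => rw [Int.cast_zero, zero_mul, add_zero]
  | succ n ih =>
    have h5 : z + (((n : ℤ) + 1 : ℤ) : ℂ) * (R : ℂ) = (z + ((n : ℤ) : ℂ) * (R : ℂ)) + (R : ℂ) := by
      push_cast
      ring
    rw [h5, hone _ (him n), ih]
  | pred n ih =>
    rw [← ih, ← hone _ (him (-(n : ℤ) - 1))]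
    congr 2
    push_cast
    ring

theorem psi_pos (k : ℕ) (h : ℍ → ℂ) (hh : Hol h) (h0 : ∃ τ, h τ ≠ 0) (R : ℝ) (hR : 0 < R)
    (hper : ∀ τ : ℍ, h (R +ᵥ τ) = h τ) :
    ∃ δ : ℝ, 0 < δ ∧ ∀ s v : ℝ, 1 / 2 ≤ v → v ≤ 1 → δ ≤ Psi k h s v := by
  have hc : Continuous fun p : ℝ × ℝ => ∫ t in (-(1 / 4) : ℝ)..(1 / 4), FF k h p t :=
    intervalIntegral.continuous_parametric_intervalIntegral_of_continuous' (FF_cont k h hh) _ _
  obtain ⟨p0, -, hp0⟩ := (isCompact_Icc.prod isCompact_Icc).exists_isMinOn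
    (s := Set.Icc (0 : ℝ) R ×ˢ Set.Icc (1 / 2 : ℝ) 1)
    ⟨(0, 1), ⟨⟨le_rfl, hR.le⟩, ⟨by norm_num, le_rfl⟩⟩⟩ hc.continuousOn
  refine ⟨_, FF_pos k h hh h0 p0, fun s v hv1 hv2 => ?_⟩
  obtain ⟨n, hn⟩ : ∃ n : ℤ, n = ⌊s / R⌋ := ⟨_, rfl⟩
  have h1 : (n : ℝ) * R ≤ s := by
    rw [hn, ← le_div_iff₀ hR]
    exact Int.floor_le _
  have h2 : s ≤ (n : ℝ) * R + R := by
    have h3 : s / R < (n : ℝ) + 1 := by rw [hn]; exact Int.lt_floor_add_one _
    rw [div_lt_iff₀ hR] at h3
    linarith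
  have h4 : Psi k h s v = Psi k h (s - n * R) v := by
    unfold Psi
    refine intervalIntegral.integral_congr fun t _ => ?_
    have h5 : pt (s - n * R) t v = pt s t v + (n : ℂ) * (R : ℂ) := by
      unfold pt
      push_cast
      ring
    rw [h5, per_int h R hper n _ (pt_im s t v (by linarith))]
  rw [h4, Psi_eq k h _ v hv1]
  exact hp0 (a := (s - n * R, v)) ⟨⟨by show 0 ≤ s - n * R; linarith, by show s - n * R ≤ R; linarith⟩,
    ⟨hv1, hv2⟩⟩

end Pool.Agent.H37.IC
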