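import Mathlib

/-!
# [H37 IC Tot] THEOREM IC, chapter 4: the sum of `φ(c) c^(-2σ)` (Mathlib only)

PROOF. Put `T N = ∑_(1 ≤ c ≤ N) φ(c) c^(-2σ)`. For `m ≥ 1`: `m = ∑_(d ∣ m) φ(d)` (`Nat.sum_totient`), so
`∑_(1 ≤ m ≤ N) m^(1-2σ) = ∑_(m ≤ N) ∑_(c ∣ m) φ(c) m^(-2σ) = ∑_(c d ≤ N) φ(c) c^(-2σ) d^(-2σ)
≤ (∑_(d ≤ N) d^(-2σ)) T N ≤ 2 T N` (`Nat.divisorsAntidiagonal`, the map `(c, d) ↦ c d`;
`∑_(d ≤ N) d^(-2σ) ≤ ∑_(d ≤ N) d^(-2) ≤ 2`, e.g. `1 + ∑_(d ≥ 2) 1/(d(d-1))`).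
`∑_(1 ≤ m ≤ N) m^(1-2σ) ≥ ∫_1^(N+1) x^(1-2σ) dx = (1 - (N+1)^(2-2σ)) / (2σ-2)`
(`AntitoneOn.integral_le_sum`, `integral_rpow`), and this tends to `1/(2σ-2)`.
For `N ≥ 2`: `T N = 1 + ∑_(2 ≤ c ≤ N)` and `1 ≤ 16 φ(2) 2^(-2σ)` (`σ ≤ 2`), so
`T N ≤ 17 ∑_(2 ≤ c ≤ N) φ(c) c^(-2σ) ≤ 17 B`. Hence `(1 - (N+1)^(2-2σ)) / (2σ-2) ≤ 34 B` for all
`N ≥ 2`, and in the limit `1/(σ-1) ≤ 68 B`: `c1 = 1/68`.
-/

set_option autoImplicit false

namespace Pool.Agent.H37.IC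

private theorem tot_tele {s : ℝ} (hs : 0 < s) (N : ℕ) :
    1 - ((N : ℝ) + 1) ^ (-s) ≤ s * ∑ m ∈ Finset.Icc 1 N, (m : ℝ) ^ (-s - 1) := by
  induction N with
  | zero => simp
  | succ N ih =>
    rw [Finset.sum_Icc_succ_top (by omega), mul_add]
    have hm : (0 : ℝ) < ((N + 1 : ℕ) : ℝ) := by positivity
    obtain ⟨x, hx⟩ : ∃ x : ℝ, x = ((N + 1 : ℕ) : ℝ) := ⟨_, rfl⟩
    rw [← hx] at hm ⊢
    have hx' : (N : ℝ) + 1 = x := by
      rw [hx]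
      push_cast
      ring
    rw [hx'] at ih
    have h1 : x ^ (-s - 1) = x ^ (-s) / x := by
      rw [Real.rpow_sub hm, Real.rpow_one]
    have h2 : 0 < 1 + 1 / x := by positivity
    have h3 : Real.log (1 + 1 / x) ≤ 1 / x := by
      have := Real.log_le_sub_one_of_pos h2
      linarith
    have h4 : 1 - s / x ≤ (1 + 1 / x) ^ (-s) := by
      rw [Real.rpow_def_of_pos h2]
      refine le_trans ?_ (Real.add_one_le_exp _)
      have h5 : s * Real.log (1 + 1 / x) ≤ s * (1 / x) := mul_le_mul_of_nonneg_left h3 hs.le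
      have h6 : s * (1 / x) = s / x := by ring
      linarith
    have h7 : (x + 1) ^ (-s) = x ^ (-s) * (1 + 1 / x) ^ (-s) := by
      rw [← Real.mul_rpow hm.le h2.le]
      congr 1
      field_simp
    have h8 : 0 ≤ x ^ (-s) := Real.rpow_nonneg hm.le _
    have h9 : x ^ (-s) * (1 - s / x) ≤ (x + 1) ^ (-s) := by
      rw [h7]
      exact mul_le_mul_of_nonneg_left h4 h8
    have h10 : x ^ (-s) * (1 - s / x) = x ^ (-s) - s * (x ^ (-s) / x) := by ring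
    rw [h1]
    linarith

private theorem tot_sq (σ : ℝ) (hσ : 1 ≤ σ) (N : ℕ) :
    ∑ d ∈ Finset.Icc 1 N, (d : ℝ) ^ (-(2 * σ)) ≤ 2 := by
  have h1 : Finset.Icc 1 N = Finset.Ioo 0 (N + 1) := by
    ext x
    simp only [Finset.mem_Icc, Finset.mem_Ioo]
    omega
  have h2 := sum_Ioo_inv_sq_le (α := ℝ) 0 (N + 1)
  rw [← h1] at h2
  refine (Finset.sum_le_sum fun d hd => ?_).trans (h2.trans (by norm_num))
  have hd1 : (1 : ℝ) ≤ (d : ℝ) := by exact_mod_cast (Finset.mem_Icc.1 hd).1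
  have h3 : (d : ℝ) ^ (-(2 * σ)) ≤ (d : ℝ) ^ (-2 : ℝ) :=
    Real.rpow_le_rpow_of_exponent_le hd1 (by linarith)
  have h4 : (d : ℝ) ^ (-2 : ℝ) = ((d : ℝ) ^ 2)⁻¹ := by
    rw [Real.rpow_neg (by linarith)]
    congr 1
    exact_mod_cast Real.rpow_natCast (d : ℝ) 2
  rw [h4] at h3
  exact h3

private theorem tot_term (σ : ℝ) {m : ℕ} (hm : 1 ≤ m) :
    (m : ℝ) ^ (1 - 2 * σ) = ∑ p ∈ m.divisorsAntidiagonal,
      ((Nat.totient p.1 : ℝ) * (p.1 : ℝ) ^ (-(2 * σ))) * (p.2 : ℝ) ^ (-(2 * σ)) := by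
  have hm0 : (0 : ℝ) < (m : ℝ) := by exact_mod_cast hm
  have h1 : ∀ p ∈ m.divisorsAntidiagonal,
      ((Nat.totient p.1 : ℝ) * (p.1 : ℝ) ^ (-(2 * σ))) * (p.2 : ℝ) ^ (-(2 * σ)) =
        (Nat.totient p.1 : ℝ) * (m : ℝ) ^ (-(2 * σ)) := by
    intro p hp
    have h2 := (Nat.mem_divisorsAntidiagonal.1 hp).1
    rw [mul_assoc, ← Real.mul_rpow (Nat.cast_nonneg _) (Nat.cast_nonneg _), ← Nat.cast_mul, h2]
  rw [Finset.sum_congr rfl h1, ← Finset.sum_mul]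
  have h3 : ∑ p ∈ m.divisorsAntidiagonal, (Nat.totient p.1 : ℝ) = (m : ℝ) := by
    have h4 : ∑ p ∈ m.divisorsAntidiagonal, (Nat.totient p.1 : ℝ) =
        ∑ c ∈ m.divisors, (Nat.totient c : ℝ) := by
      rw [← Nat.map_div_right_divisors, Finset.sum_map]
      rfl
    rw [h4]
    have := Nat.sum_totient m
    exact_mod_cast this
  rw [h3]
  have h4 : (1 : ℝ) - 2 * σ = 1 + -(2 * σ) := by ring
  rw [h4, Real.rpow_add hm0, Real.rpow_one]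

private theorem tot_conv (σ : ℝ) (N : ℕ) :
    ∑ m ∈ Finset.Icc 1 N, (m : ℝ) ^ (1 - 2 * σ) ≤
      (∑ c ∈ Finset.Icc 1 N, (Nat.totient c : ℝ) * (c : ℝ) ^ (-(2 * σ))) *
        ∑ d ∈ Finset.Icc 1 N, (d : ℝ) ^ (-(2 * σ)) := by
  classical
  rw [Finset.sum_congr rfl fun m hm => tot_term σ (Finset.mem_Icc.1 hm).1,
    ← Finset.sum_biUnion, Finset.sum_mul_sum, ← Finset.sum_product']
  · refine Finset.sum_le_sum_of_subset_of_nonneg ?_ fun p _ _ => by positivity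
    intro p hp
    obtain ⟨m, hm, hpm⟩ := Finset.mem_biUnion.1 hp
    obtain ⟨h1, h2⟩ := Nat.mem_divisorsAntidiagonal.1 hpm
    obtain ⟨h3, h4⟩ := Finset.mem_Icc.1 hm
    have h5 : p.1 ≠ 0 := by
      intro h
      rw [h, zero_mul] at h1
      omega
    have h6 : p.2 ≠ 0 := by
      intro h
      rw [h, mul_zero] at h1
      omega
    have h7 : p.1 ≤ p.1 * p.2 := Nat.le_mul_of_pos_right _ (Nat.pos_of_ne_zero h6)
    have h8 : p.2 ≤ p.1 * p.2 := Nat.le_mul_of_pos_left _ (Nat.pos_of_ne_zero h5)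
    rw [Finset.mem_product, Finset.mem_Icc, Finset.mem_Icc]
    omega
  · intro m _ m' _ hne
    rw [Function.onFun, Finset.disjoint_left]
    intro p hp hp'
    apply hne
    rw [← (Nat.mem_divisorsAntidiagonal.1 hp).1, ← (Nat.mem_divisorsAntidiagonal.1 hp').1]

theorem tot : ∃ c1 : ℝ, 0 < c1 ∧ ∀ σ : ℝ, 1 < σ → σ ≤ 2 → ∀ B : ℝ,
    (∀ N : ℕ, ∑ c ∈ Finset.Icc 2 N, (Nat.totient c : ℝ) * (c : ℝ) ^ (-(2 * σ)) ≤ B) →
      c1 / (σ - 1) ≤ B := by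
  refine ⟨1 / 68, by norm_num, fun σ h1 h2 B hB => ?_⟩
  obtain ⟨s, hs⟩ : ∃ s : ℝ, s = 2 * σ - 2 := ⟨_, rfl⟩
  have hs0 : 0 < s := by linarith
  have hbig : ∀ N : ℕ, 2 ≤ N → 1 - ((N : ℝ) + 1) ^ (-s) ≤ s * (34 * B) := by
    intro N hN
    refine (tot_tele hs0 N).trans (mul_le_mul_of_nonneg_left ?_ hs0.le)
    have e1 : ∀ m ∈ Finset.Icc 1 N, (m : ℝ) ^ (-s - 1) = (m : ℝ) ^ (1 - 2 * σ) := by
      intro m _
      congr 1
      linarith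
    rw [Finset.sum_congr rfl e1]
    have hT0 : (0 : ℝ) ≤ ∑ c ∈ Finset.Icc 1 N, (Nat.totient c : ℝ) * (c : ℝ) ^ (-(2 * σ)) :=
      Finset.sum_nonneg fun c _ => by positivity
    refine (tot_conv σ N).trans ((mul_le_mul_of_nonneg_left (tot_sq σ h1.le N) hT0).trans ?_)
    have h3 : Finset.Icc 1 N = insert 1 (Finset.Icc 2 N) := by
      ext x
      simp only [Finset.mem_Icc, Finset.mem_insert]
      omega
    have h4 : (1 : ℕ) ∉ Finset.Icc 2 N := by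
      simp
    rw [h3, Finset.sum_insert h4]
    have h5 := hB N
    have h6 : (Nat.totient 2 : ℝ) * ((2 : ℕ) : ℝ) ^ (-(2 * σ)) ≤
        ∑ c ∈ Finset.Icc 2 N, (Nat.totient c : ℝ) * (c : ℝ) ^ (-(2 * σ)) :=
      Finset.single_le_sum (f := fun c : ℕ => (Nat.totient c : ℝ) * (c : ℝ) ^ (-(2 * σ)))
        (fun c _ => by positivity) (Finset.mem_Icc.2 ⟨le_rfl, hN⟩)
    have h7 : (1 : ℝ) / 16 ≤ (Nat.totient 2 : ℝ) * ((2 : ℕ) : ℝ) ^ (-(2 * σ)) := by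
      rw [Nat.totient_two, Nat.cast_one, one_mul]
      have h8 : ((2 : ℕ) : ℝ) ^ (-4 : ℝ) ≤ ((2 : ℕ) : ℝ) ^ (-(2 * σ)) :=
        Real.rpow_le_rpow_of_exponent_le (by norm_num) (by linarith)
      have h9 : ((2 : ℕ) : ℝ) ^ (-4 : ℝ) = 1 / 16 := by
        rw [Real.rpow_neg (by norm_num)]
        norm_num
      rw [h9] at h8
      exact h8
    rw [Nat.totient_one, Nat.cast_one, Real.one_rpow]
    have h8 := h7.trans h6
    generalize (∑ c ∈ Finset.Icc 2 N, (Nat.totient c : ℝ) * (c : ℝ) ^ (-(2 * σ))) = S at h5 h8 ⊢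
    linarith
  have hlim : Filter.Tendsto (fun N : ℕ => 1 - ((N : ℝ) + 1) ^ (-s)) Filter.atTop
      (nhds (1 - 0)) := by
    refine Filter.Tendsto.const_sub _ ?_
    have h3 := tendsto_rpow_neg_atTop hs0
    exact h3.comp (Filter.tendsto_atTop_add_const_right _ _ tendsto_natCast_atTop_atTop)
  have hfin : (1 : ℝ) - 0 ≤ s * (34 * B) := by
    refine le_of_tendsto hlim ?_
    filter_upwards [Filter.eventually_ge_atTop 2] with N hN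
    exact hbig N hN
  rw [div_le_iff₀ (by linarith)]
  rw [hs] at hfin
  linarith

end Pool.Agent.H37.IC
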