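import Mathlib
import Pool.Agent.H37.IC.Par
import Pool.Agent.H37.IC.Psi
import Pool.Agent.H37.IC.Box
import Pool.Agent.H37.IC.Dis
import Pool.Agent.H37.IC.Mel
import Pool.Agent.H37.IC.Tot
import Pool.Agent.H13.IC.Oc

/-!
# THEOREM IC, chapter 4: the lower bound (assembly)
-/

set_option autoImplicit false

namespace Pool.Agent.H37.IC

open Complex UpperHalfPlane MatrixGroups Pool.Agent.H13.IC PowerSeries

theorem upos (x : ℝ) {y : ℝ} (hy : 0 < y) : 0 < ((x : ℂ) + (y : ℂ) * Complex.I).im := by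
  simpa using hy

theorem fH_at (u : PowerSeries ℂ) (x : ℝ) {y : ℝ} (hy : 0 < y) :
    fH u (ofComplex ((x : ℂ) + (y : ℂ) * Complex.I)) = ev u ((x : ℂ) + (y : ℂ) * Complex.I) := by
  rw [fH, UpperHalfPlane.ofComplex_apply_of_im_pos (upos x hy)]

/-- every member of the orbit is not identically zero -/
theorem orbit_ne (k : ℕ) (u : PowerSeries ℂ) (hu : Cvg u) (hne : u ≠ 0) (γ : SL(2, ℤ)) :
    ∃ τ, sl k (fH u) γ τ ≠ 0 := by
  by_contra hcon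
  push Not at hcon
  apply hne
  have hz : Cvg (0 : PowerSeries ℂ) := by
    intro r _ _
    simp
  refine ev_unique hu hz fun z hz0 => ?_
  have h1 : fH u ⟨z, hz0⟩ = 0 := by
    have h2 := hcon (γ⁻¹ • ⟨z, hz0⟩)
    rw [sl, smul_inv_smul] at h2
    rcases div_eq_zero_iff.mp h2 with h3 | h3
    · exact h3
    · exact absurd h3 (pow_ne_zero k (den_ne γ _))
  have h2 : ev (0 : PowerSeries ℂ) z = 0 := by simp [ev, evq]
  rw [h2]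
  exact h1

/-- the box integrals of the whole orbit are bounded below -/
theorem orbit_low (k : ℕ) (u : PowerSeries ℂ) (hu : Cvg u) (hne : u ≠ 0)
    (hfin : (Set.range (sl k (fH u))).Finite) :
    ∃ δ : ℝ, 0 < δ ∧ ∀ (γ : SL(2, ℤ)) (s v : ℝ), 1 / 2 ≤ v → v ≤ 1 → δ ≤ Psi k (sl k (fH u) γ) s v := by
  obtain ⟨R, hR, hper⟩ := period k (fH u) hfin
  have h1 : ∀ h ∈ Set.range (sl k (fH u)), ∃ δ : ℝ, 0 < δ ∧ ∀ s v : ℝ, 1 / 2 ≤ v → v ≤ 1 →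
      δ ≤ Psi k h s v := by
    rintro h ⟨γ, rfl⟩
    exact psi_pos k _ (hol_sl k (hol_fH hu) γ) (orbit_ne k u hu hne γ) R
      (by exact_mod_cast hR) (hper _ ⟨γ, rfl⟩)
  choose! D hD0 hD using h1
  obtain ⟨h0, hh0, hmin⟩ := Set.exists_min_image _ D hfin ⟨_, ⟨1, rfl⟩⟩
  refine ⟨D h0, hD0 h0 hh0, fun γ s v hv hv1 => ?_⟩
  exact (hmin _ ⟨γ, rfl⟩).trans (hD _ ⟨γ, rfl⟩ s v hv hv1)

/-- a matrix with given first column -/
theorem exists_col (a c : ℕ) (h : a.Coprime c) : ∃ γ : SL(2, ℤ), γ 0 0 = a ∧ γ 1 0 = c := by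
  obtain ⟨x, y, hxy⟩ : IsCoprime (a : ℤ) (c : ℤ) := Nat.isCoprime_iff_coprime.mpr h
  refine ⟨⟨!![(a : ℤ), -y; c, x], ?_⟩, ?_, ?_⟩
  · rw [Matrix.det_fin_two_of]
    linarith
  · simp
  · simp

theorem height_low (k : ℕ) (u : PowerSeries ℂ) (hu : Cvg u) (δ : ℝ)
    (hδ : ∀ (γ : SL(2, ℤ)) (s v : ℝ), 1 / 2 ≤ v → v ≤ 1 → δ ≤ Psi k (sl k (fH u) γ) s v)
    (y : ℝ) (hy : 0 < y) (s : Finset ℕ) (hs : Den y s) :
    ∑ c ∈ s, (Nat.totient c : ℝ) * (δ * ((c : ℝ) ^ (2 * k) / (c : ℝ) ^ 2)) ≤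
      ∑' n : ℕ, ‖coeff n u‖ ^ 2 * Real.exp (-(4 * Real.pi * n * y)) := by
  rw [← pars hu y hy]
  have hcont : Continuous fun x : ℝ => ‖ev u ((x : ℂ) + (y : ℂ) * Complex.I)‖ ^ 2 := by
    have h1 := (ev_diff hu).continuousOn
    have h2 : Continuous fun x : ℝ => ((x : ℂ) + (y : ℂ) * Complex.I) := by fun_prop
    exact (h1.comp_continuous h2 (fun x => upos x hy)).norm.pow 2
  refine dis (fun x => ‖ev u ((x : ℂ) + (y : ℂ) * Complex.I)‖ ^ 2) hcont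
    (fun x => by positivity) y hy s hs _ ?_
  intro c hc a hac hcop
  obtain ⟨hc2, hy1, hy2⟩ := hs c hc
  obtain ⟨γ, hγ0, hγ1⟩ := exists_col a c hcop
  have hcpos : (0 : ℝ) < c := by exact_mod_cast (by omega : 0 < c)
  have hb := box k (fH u) γ (by rw [hγ1]; exact_mod_cast (by omega : 0 < c)) y hy
  rw [hγ0, hγ1] at hb
  have h3 : (((a : ℤ) : ℝ)) = (a : ℝ) := by push_cast; rfl
  have h4 : (((c : ℤ) : ℝ)) = (c : ℝ) := by push_cast; rfl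
  rw [h3, h4] at hb
  simp only [fH_at u _ hy] at hb
  rw [hb, mul_comm δ]
  exact mul_le_mul_of_nonneg_left (hδ γ _ _ hy1 hy2) (by positivity)

theorem gamma_bdd (k : ℕ) (hk : 1 ≤ k) : ∃ C : ℝ, 0 < C ∧ ∀ σ : ℝ, 1 < σ → σ ≤ 2 →
    Real.Gamma ((k : ℝ) - 1 + σ) * (4 * Real.pi) ^ (-((k : ℝ) - 1 + σ)) ≤
      C * (2 : ℝ) ^ (-((k : ℝ) - 1 + σ)) := by
  have hk1 : (1 : ℝ) ≤ k := by exact_mod_cast hk
  have hcont : ContinuousOn Real.Gamma (Set.Icc (k : ℝ) (k + 1)) :=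
    Real.differentiableOn_Gamma_Ioi.continuousOn.mono fun x hx => by
      have := hx.1
      exact lt_of_lt_of_le (by linarith) this
  obtain ⟨C, hC⟩ := isCompact_Icc.exists_bound_of_continuousOn hcont
  refine ⟨max C 1, by positivity, fun σ h1 h2 => ?_⟩
  have hmem : (k : ℝ) - 1 + σ ∈ Set.Icc (k : ℝ) (k + 1) := ⟨by linarith, by linarith⟩
  have h3 : Real.Gamma ((k : ℝ) - 1 + σ) ≤ max C 1 :=
    (le_abs_self _).trans ((hC _ hmem).trans (le_max_left _ _))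
  have h4 : (4 * Real.pi) ^ (-((k : ℝ) - 1 + σ)) ≤ (2 : ℝ) ^ (-((k : ℝ) - 1 + σ)) := by
    apply Real.rpow_le_rpow_of_nonpos two_pos
    · have := Real.pi_gt_three
      linarith
    · linarith
  exact mul_le_mul h3 h4 (by positivity) (by positivity)

/-- THE LOWER BOUND. -/
theorem lower (k : ℕ) (hk : 1 ≤ k) (u : PowerSeries ℂ) (hu : Cvg u) (h0 : coeff 0 u = 0)
    (hne : u ≠ 0) (hfin : (Set.range (sl k (fH u))).Finite)
    (hs : ∀ σ : ℝ, 1 < σ → Summable fun n : ℕ => ‖coeff n u‖ ^ 2 / (n : ℝ) ^ ((k : ℝ) - 1 + σ)) :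
    ∃ c : ℝ, 0 < c ∧ ∀ σ : ℝ, 1 < σ → σ ≤ 2 →
      c / (σ - 1) ≤ ∑' n : ℕ, ‖coeff n u‖ ^ 2 / (n : ℝ) ^ ((k : ℝ) - 1 + σ) := by
  obtain ⟨δ, hδ0, hδ⟩ := orbit_low k u hu hne hfin
  obtain ⟨c1, hc1, htot⟩ := tot
  obtain ⟨C, hC0, hC⟩ := gamma_bdd k hk
  refine ⟨c1 * δ / C, by positivity, fun σ h1 h2 => ?_⟩
  have hD0 : 0 ≤ ∑' n : ℕ, ‖coeff n u‖ ^ 2 / (n : ℝ) ^ ((k : ℝ) - 1 + σ) :=
    tsum_nonneg fun n => by positivity
  have h3 : ∀ N : ℕ, ∑ c ∈ Finset.Icc 2 N, (Nat.totient c : ℝ) * (c : ℝ) ^ (-(2 * σ)) ≤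
      C / δ * ∑' n : ℕ, ‖coeff n u‖ ^ 2 / (n : ℝ) ^ ((k : ℝ) - 1 + σ) := by
    intro N
    have h4 := mel k hk (fun n => coeff n u) h0 σ h1 (hs σ h1) δ hδ0.le
      (fun y hy s hs' => height_low k u hu δ hδ y hy s hs') N
    have h5 : (0 : ℝ) < 2 ^ (-((k : ℝ) - 1 + σ)) := by positivity
    have h6 := mul_le_mul_of_nonneg_right (hC σ h1 h2) hD0
    have h7 := h4.trans h6
    have h8 : (2 : ℝ) ^ (-((k : ℝ) - 1 + σ)) * (δ * ∑ c ∈ Finset.Icc 2 N,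
        (Nat.totient c : ℝ) * (c : ℝ) ^ (-(2 * σ))) ≤ (2 : ℝ) ^ (-((k : ℝ) - 1 + σ)) *
        (C * ∑' n : ℕ, ‖coeff n u‖ ^ 2 / (n : ℝ) ^ ((k : ℝ) - 1 + σ)) := by
      calc _ = δ * (2 : ℝ) ^ (-((k : ℝ) - 1 + σ)) *
          ∑ c ∈ Finset.Icc 2 N, (Nat.totient c : ℝ) * (c : ℝ) ^ (-(2 * σ)) := by ring
        _ ≤ _ := h7
        _ = _ := by ring
    have h9 := le_of_mul_le_mul_left h8 h5
    rw [div_mul_eq_mul_div, le_div_iff₀ hδ0]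
    linarith
  have h10 := htot σ h1 h2 _ h3
  have h11 : 0 < σ - 1 := by linarith
  rw [div_mul_eq_mul_div, div_le_div_iff₀ h11 hδ0] at h10
  rw [div_div, div_le_iff₀ (by positivity)]
  linarith

end Pool.Agent.H37.IC
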